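import Pool.Agent.Helper69.ZD.Trans
import Pool.Agent.Helper20.ZD.Diag

/-! # Unlikely intersections excluded by places: uniform statements -/

open MvPolynomial Finset

namespace Pool.Agent.Helper36.ZD
open Pool.Agent.Helper11.ZP Pool.Agent.Helper11.ZU Pool.Agent.Helper20.ZD Pool.Agent.Helper69.ZD

variable {n : ℕ}

/-- `Δ` contains no special point, and the cyclic isogenies between its elements are of degree at most
`M` -/
def BoundedBy (M : ℕ) (Δ : Set ℂ) : Prop :=
  (∀ x ∈ Δ, ¬ IsSpecialPoint x) ∧ ∀ x ∈ Δ, ∀ y ∈ Δ, ∀ N : ℕ, CyclicIsog N x y → N ≤ M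

/-- for every set `J` of `d + 1` coordinates there are a set `Δ` with bounded isogenies and a set `Ω` not
isogenous to it such that at most `d` of the coordinates of `x` are not in `Δ` and are in `J` or not
in `Ω` -/
def Good (M d : ℕ) (x : Fin n → ℂ) : Prop :=
  ∀ J : Finset (Fin n), J.card = d + 1 → ∃ Δ Ω : Set ℂ, BoundedBy M Δ ∧ Separated Δ Ω ∧
    ∀ T : Finset (Fin n), (∀ i ∈ T, x i ∉ Δ ∧ (i ∈ J ∨ x i ∉ Ω)) → T.card ≤ d

lemma good_of_atMost {M d : ℕ} {Δ : Set ℂ} (hΔ : BoundedBy M Δ) {x : Fin n → ℂ}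
    (h : ∀ J : Finset (Fin n), (∀ i ∈ J, x i ∉ Δ) → J.card ≤ d) : Good M d x :=
  fun _ _ => ⟨Δ, ∅, hΔ, fun _ _ _ hy => absurd hy (Set.notMem_empty _),
    fun T hT => h T fun i hi => (hT i hi).1⟩

lemma exists_good_of_locally {d : ℕ} {V : Set (Fin n → ℂ)} (h : LocallyAtMost d V) :
    ∃ M : ℕ, ∀ x ∈ V, Good M d x := by
  classical
  choose Δ Ω hΔ hΩ hA using h
  choose M hM using fun J hJ => (hΔ J hJ).bounded
  let 𝒥 : Finset (Finset (Fin n)) := Finset.univ.filter fun J => J.card = d + 1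
  have hmem : ∀ J, J ∈ 𝒥 → J.card = d + 1 := fun J hJ => (Finset.mem_filter.1 hJ).2
  refine ⟨𝒥.attach.sup fun J => M J.1 (hmem J.1 J.2), fun x hx J hJ => ⟨Δ J hJ, Ω J hJ,
    ⟨(hΔ J hJ).special, fun y hy z hz N h => (hM J hJ y hy z hz N h).trans ?_⟩, hΩ J hJ,
    hA J hJ x hx⟩⟩
  exact Finset.le_sup (f := fun J : 𝒥 => M J.1 (hmem J.1 J.2))
    (mem_attach 𝒥 ⟨J, mem_filter.2 ⟨mem_univ _, hJ⟩⟩)

/-- **the unlikely intersections lie in finitely many special hypersurfaces** -/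
theorem cover_good {M d : ℕ} {A : Set (Fin n → ℂ)} (hA : IsSubvariety A) (hgood : ∀ x ∈ A, Good M d x)
    (S : SpecialData n) (hAS : A ⊆ S.carrier) (hd : d + dim S.carrier < dim A + n) :
    ∃ (i j : Fin n) (N : ℕ), i ≠ j ∧ 0 < N ∧ N ≤ M ∧ ∀ x ∈ S.carrier, CyclicIsog N (x i) (x j) := by
  have hr := S.le_dim
  obtain ⟨x, B, hx, hB, hspec⟩ := exists_special_classes hA S hAS
  obtain ⟨J, hJ, hJT⟩ := comb S.cls S.surj B (d := d) (by rw [hB]; omega)
  obtain ⟨Δ, Ω, hΔ, hΩ, hT⟩ := hgood x hx J hJ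
  obtain ⟨i, j, s, hij, hi, hj, hxi, hxj⟩ := exists_pair_local hΔ.1 hΩ (hAS hx) hspec hJT hT
  obtain ⟨N, hN, h⟩ := class_isog S hi hj
  exact ⟨i, j, N, hij, hN, hΔ.2 _ hxi _ hxj _ (h x (hAS hx)), h⟩

/-- **the atypical subvarieties are not dense** -/
theorem notDense_good {M d : ℕ} {V : Set (Fin n → ℂ)} (hV : IsSubvariety V)
    (hgood : ∀ x ∈ V, Good M d x) (hd : d ≤ dim V)
    (hVS : ∀ S : SpecialData n, dim S.carrier < n → ¬ V ⊆ S.carrier) : AtypicalNotDense V := by
  refine ⟨levelPoly n M, ?_, ?_⟩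
  · by_contra hcon
    push Not at hcon
    obtain ⟨i, j, N, hij, hN, -, h⟩ := exists_of_levelPoly (M := M) hV (mem_van.2 hcon)
    exact hVS _ (dim_hypData hN hij) fun x hx => (mem_hypData hN hij x).2 (h x hx)
  · rintro A ⟨S, ⟨hA, hAVS, -⟩, hlt⟩ x hx
    obtain ⟨i, j, N, hij, hN, hNM, h⟩ := cover_good hA (fun y hy => hgood y (hAVS hy).1) S
      (fun y hy => (hAVS hy).2) (by omega)
    exact eval_levelPoly hij hN hNM (h x (hAVS hx).2)

/-- **every subvariety**: the good points on special subvarieties of codimension greater than its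
dimension are not dense -/
theorem notDense_points_good (M : ℕ) {V : Set (Fin n → ℂ)} (hV : IsSubvariety V)
    (hVS : ∀ S : SpecialData n, dim S.carrier < n → ¬ V ⊆ S.carrier) :
    ∃ f : MvPolynomial (Fin n) ℂ, (∃ x ∈ V, eval x f ≠ 0) ∧ ∀ x : Fin n → ℂ,
      (∃ S : SpecialData n, dim V + dim S.carrier < n ∧ x ∈ S.carrier) → Good M (dim V) x →
        eval x f = 0 := by
  refine ⟨levelPoly n M, ?_, ?_⟩
  · by_contra hcon
    push Not at hcon
    obtain ⟨i, j, N, hij, hN, -, h⟩ := exists_of_levelPoly (M := M) hV (mem_van.2 hcon)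
    exact hVS _ (dim_hypData hN hij) fun x hx => (mem_hypData hN hij x).2 (h x hx)
  · rintro x ⟨S, hS, hxS⟩ hxg
    have hpt : IsSubvariety ({x} : Set (Fin n → ℂ)) := isSubvariety_singleton x
    have h0 : dim ({x} : Set (Fin n → ℂ)) = 0 := dim_of_finite (Set.finite_singleton x)
    obtain ⟨i, j, N, hij, hN, hNM, h⟩ := cover_good (M := M) (d := dim V) hpt
      (by rintro y rfl; exact hxg) S (by rintro y rfl; exact hxS) (by rw [h0]; omega)
    exact eval_levelPoly hij hN hNM (h x hxS)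

/-- **every curve**: the good points on special subvarieties of codimension two are finite in number -/
theorem finite_good {M : ℕ} {C : Set (Fin n → ℂ)} (hC : IsSubvariety C) (h1 : dim C = 1)
    (hCS : ∀ S : SpecialData n, dim S.carrier < n → ¬ C ⊆ S.carrier) :
    {x ∈ C | (∃ S : SpecialData n, dim S.carrier + 2 ≤ n ∧ x ∈ S.carrier) ∧ Good M 1 x}.Finite := by
  have hf : levelPoly n M ∉ vanishingIdeal ℂ C := by
    intro hcon
    obtain ⟨i, j, N, hij, hN, -, h⟩ := exists_of_levelPoly (M := M) hC hcon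
    exact hCS _ (dim_hypData hN hij) fun x hx => (mem_hypData hN hij x).2 (h x hx)
  refine (finite_section hC h1.le hf).subset ?_
  rintro x ⟨hx, ⟨S, hS, hxS⟩, hxg⟩
  refine ⟨hx, ?_⟩
  have hpt : IsSubvariety ({x} : Set (Fin n → ℂ)) := isSubvariety_singleton x
  have h0 : dim ({x} : Set (Fin n → ℂ)) = 0 := dim_of_finite (Set.finite_singleton x)
  obtain ⟨i, j, N, hij, hN, hNM, h⟩ := cover_good (M := M) (d := 1) hpt
    (by rintro y rfl; exact hxg) S (by rintro y rfl; exact hxS) (by rw [h0]; omega)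
  exact eval_levelPoly hij hN hNM (h x hxS)

/-- **Zilber–Pink for curves** -/
theorem zp_good {M : ℕ} {C : Set (Fin n → ℂ)} (hC : IsSubvariety C) (h1 : dim C = 1)
    (hgood : ∀ x ∈ C, Good M 1 x) :
    {A | IsAtypical C A ∧ ∀ B, IsAtypical C B → A ⊆ B → B = A}.Finite :=
  finite_max hC h1 fun hCS => notDense_good hC hgood h1.ge hCS

/-- a curve of good points without constant coordinates is not contained in a proper special
subvariety -/
theorem not_special_good {M : ℕ} {C : Set (Fin n → ℂ)} (hC : IsSubvariety C) (h1 : dim C = 1)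
    (hgood : ∀ x ∈ C, Good M 1 x) (hc : ∀ (i : Fin n) (c : ℂ), ∃ x ∈ C, x i ≠ c)
    (S : SpecialData n) (hS : dim S.carrier < n) : ¬ C ⊆ S.carrier := by
  classical
  intro hCS
  have hcls : ∀ i, ∃ s, S.cls i = some s := by
    intro i
    rcases h : S.cls i with _ | s
    · obtain ⟨x, hx, hx2⟩ := hc i (S.c i)
      exact absurd ((hCS hx).1 i h) hx2
    · exact ⟨s, rfl⟩
  choose s hs using hcls
  have hr := S.le_dim
  obtain ⟨i, -, j, -, hij, hsij⟩ := Finset.exists_ne_map_eq_of_card_lt_of_maps_to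
    (s := (univ : Finset (Fin n))) (t := (univ : Finset (Fin S.r)))
    (by rw [card_univ, card_univ, Fintype.card_fin, Fintype.card_fin]; omega)
    (f := s) (fun i _ => mem_coe.2 (mem_univ _))
  obtain ⟨x, hx, hxi⟩ := exists_spec' hC infinite_special {i} (by rw [card_singleton, h1])
    (fun f hf hf2 => transc_of_nonconst hC (hc i) hf hf2)
  have hxi' : IsSpecialPoint (x i) := hxi i (mem_singleton_self i)
  have hxj : IsSpecialPoint (x j) := special_of_class S (hs i) (by rw [hsij]; exact hs j) (hCS hx) hxi'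
  obtain ⟨Δ, Ω, hΔ, -, hT⟩ := hgood x hx {i, j} (by rw [card_pair hij])
  have h2 := hT {i, j} (by
    intro k hk
    refine ⟨?_, Or.inl hk⟩
    rw [mem_insert, mem_singleton] at hk
    rcases hk with rfl | rfl
    · exact fun h => hΔ.1 _ h hxi'
    · exact fun h => hΔ.1 _ h hxj)
  rw [card_pair hij] at h2
  omega

/-- **curves without constant coordinates**: plain finiteness -/
theorem finite_codim_two_good {M : ℕ} {C : Set (Fin n → ℂ)} (hC : IsSubvariety C) (h1 : dim C = 1)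
    (hgood : ∀ x ∈ C, Good M 1 x) (hc : ∀ (i : Fin n) (c : ℂ), ∃ x ∈ C, x i ≠ c) :
    {x ∈ C | ∃ S : SpecialData n, dim S.carrier + 2 ≤ n ∧ x ∈ S.carrier}.Finite := by
  refine (finite_good (M := M) hC h1 (not_special_good hC h1 hgood hc)).subset ?_
  rintro x ⟨hx, hS⟩
  exact ⟨hx, hS, hgood x hx⟩

end Pool.Agent.Helper36.ZD
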